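import Pool.Agent.K34TH.Thue
import Pool.Agent.W466.EK

/-!
# Numbers with prescribed multiplicities at linear forms are spread out for all but finitely many
integers
-/

set_option autoImplicit false

namespace Pool.Agent.K34TH

open Pool.Agent.W466.EP

/-- The conditions on the exponents: the `e l i` are at least `b` and not divisible by `b`, the
`e l i` with the same `l` are distinct modulo `b`, and any `q` of the vectors `a l` are linearly
independent. -/
def GoodExpF {α : Type} (q b : ℕ) (e : Fin ((q - 1) * 2 ^ q + 2) → α → ℕ)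
    (a : Fin ((q - 1) * 2 ^ q + 2) → Fin q → ℕ) : Prop :=
  (∀ l i, b ≤ e l i ∧ ¬ b ∣ e l i) ∧ (∀ l i j, i ≠ j → ¬ e l i ≡ e l j [MOD b]) ∧
    ∀ I : Finset (Fin ((q - 1) * 2 ^ q + 2)), I.card = q → ∀ β : Fin q → ℤ,
      (∀ l ∈ I, ∑ j, β j * (a l j : ℤ) = 0) → β = 0

/-- The numbers `N i` and `d j` are spread out over primes `p > D` with the property `near p`. -/
def SpreadN {α : Type} (q D b : ℕ) (near : ℕ → Prop) (N : α → ℕ) (d : Fin q → ℕ) : Prop :=
  (∀ j, d j ≠ 0) ∧ ∃ p : Fin ((q - 1) * 2 ^ q + 1) → ℕ,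
    (∀ l, (p l).Prime ∧ D < p l ∧ near (p l)) ∧
    (∀ l i, b ≤ (N i).factorization (p l) ∧ ¬ b ∣ (N i).factorization (p l)) ∧
    (∀ l i j, i ≠ j →
      ¬ (N i).factorization (p l) ≡ (N j).factorization (p l) [MOD 2 * b]) ∧
    ∀ I : Finset (Fin ((q - 1) * 2 ^ q + 1)), I.card = q → ∀ β : Fin q → ℤ,
      (∀ l ∈ I, ∑ j, β j * ((d j).factorization (p l) : ℤ) = 0) → β = 0

/-- The multiplicity of large primes dividing `A_l k + B_l` in `m` is `e l` times that in
`A_l k + B_l`. -/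
def Mult {L : ℕ} (D₁ : ℕ) (A B : Fin L → ℤ) (k : ℤ) (m : ℕ) (e : Fin L → ℕ) : Prop :=
  m ≠ 0 ∧ ∀ (l : Fin L) (p : ℕ), p.Prime → D₁ < p → p ∣ (A l * k + B l).natAbs →
    (∀ l', l' ≠ l → ¬ p ∣ (A l' * k + B l').natAbs) →
    m.factorization p = e l * (A l * k + B l).natAbs.factorization p

theorem spread_core {α : Type} (q D D₁ : ℕ) {b : ℕ} (hb : b.Prime) (hb3 : 3 ≤ b)
    (A B : Fin ((q - 1) * 2 ^ q + 2) → ℤ) (hA : ∀ l, A l ≠ 0)
    (hAB : ∀ l l', l ≠ l' → A l * B l' - A l' * B l ≠ 0)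
    (e : Fin ((q - 1) * 2 ^ q + 2) → α → ℕ) (a : Fin ((q - 1) * 2 ^ q + 2) → Fin q → ℕ)
    (hea : GoodExpF q b e a) (F : ℤ → α → ℕ) (F' : ℤ → Fin q → ℕ) (E : Set ℤ) (hE : E.Finite)
    (hF : ∀ k ∉ E, ∀ i, Mult D₁ A B k (F k i) (fun l => e l i))
    (hF' : ∀ k ∉ E, ∀ j, Mult D₁ A B k (F' k j) (fun l => a l j)) :
    {k : ℤ | ¬ SpreadN q D b (fun p => ∃ l, (p : ℤ) ∣ A l * k + B l) (F k) (F' k)}.Finite := by
  classical
  set L : ℕ := (q - 1) * 2 ^ q + 1 with hL
  change Fin (L + 1) → ℤ at A B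
  set D' : ℕ := D + (∑ l : Fin (L + 1), ∑ l' : Fin (L + 1), (A l * B l' - A l' * B l).natAbs +
    D₁) with hD'
  have hDle : ∀ l l' : Fin (L + 1), (A l * B l' - A l' * B l).natAbs ≤ D' := by
    intro l l'
    have h1 : (A l * B l' - A l' * B l).natAbs ≤
        ∑ l' : Fin (L + 1), (A l * B l' - A l' * B l).natAbs :=
      Finset.single_le_sum (f := fun l' => (A l * B l' - A l' * B l).natAbs)
        (fun _ _ => Nat.zero_le _) (Finset.mem_univ l')
    have h2 : ∑ l' : Fin (L + 1), (A l * B l' - A l' * B l).natAbs ≤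
        ∑ l : Fin (L + 1), ∑ l' : Fin (L + 1), (A l * B l' - A l' * B l).natAbs :=
      Finset.single_le_sum
        (f := fun l => ∑ l' : Fin (L + 1), (A l * B l' - A l' * B l).natAbs)
        (fun _ _ => Nat.zero_le _) (Finset.mem_univ l)
    omega
  -- the exceptional set
  have hfin : (E ∪ ((⋃ l : Fin (L + 1), {k : ℤ | A l * k + B l = 0}) ∪
      ⋃ l : Fin (L + 1), ⋃ l' ∈ {l' : Fin (L + 1) | l ≠ l'},
        {k : ℤ | A l * k + B l ≠ 0 ∧ A l' * k + B l' ≠ 0 ∧
          (∀ p : ℕ, p.Prime → D' < p → b ∣ (A l * k + B l).natAbs.factorization p) ∧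
          ∀ p : ℕ, p.Prime → D' < p → b ∣ (A l' * k + B l').natAbs.factorization p})).Finite := by
    refine hE.union ((Set.finite_iUnion fun l => ?_).union (Set.finite_iUnion fun l =>
      (Set.toFinite _).biUnion fun l' hl' => two_bad hb3 D' (hA l) (hA l') (hAB l l' hl')))
    refine Set.Subsingleton.finite ?_
    intro k hk k' hk'
    have h1 : A l * k = A l * k' := by
      have := hk.out
      have := hk'.out
      linarith
    exact mul_left_cancel₀ (hA l) h1
  refine hfin.subset fun k hk => ?_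
  by_contra hno
  apply hk
  simp only [Set.mem_union, Set.mem_iUnion, Set.mem_ofPred_eq, not_or, not_exists] at hno
  obtain ⟨hkE, hne, hpair⟩ := hno
  -- at most one index is bad
  obtain ⟨l₀, hl₀⟩ : ∃ l₀ : Fin (L + 1), ∀ l, l ≠ l₀ → ¬ ∀ p : ℕ, p.Prime → D' < p →
      b ∣ (A l * k + B l).natAbs.factorization p := by
    by_cases h : ∃ l₀ : Fin (L + 1), ∀ p : ℕ, p.Prime → D' < p →
        b ∣ (A l₀ * k + B l₀).natAbs.factorization p
    · obtain ⟨l₀, h0⟩ := h
      exact ⟨l₀, fun l hl h1 => hpair l l₀ hl ⟨hne l, hne l₀, h1, h0⟩⟩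
    · exact ⟨0, fun l _ h1 => h ⟨l, h1⟩⟩
  have hgood : ∀ l : Fin L, ∃ p : ℕ, p.Prime ∧ D' < p ∧
      ¬ b ∣ (A (l₀.succAbove l) * k + B (l₀.succAbove l)).natAbs.factorization p := by
    intro l
    have h1 := hl₀ (l₀.succAbove l) (Fin.succAbove_ne l₀ l)
    push Not at h1
    exact h1
  choose p hp hpD hpb using hgood
  have hdvd : ∀ l : Fin L, p l ∣ (A (l₀.succAbove l) * k + B (l₀.succAbove l)).natAbs := by
    intro l
    by_contra h1
    apply hpb l
    rw [Nat.factorization_eq_zero_of_not_dvd h1]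
    exact dvd_zero _
  have hother : ∀ (l : Fin L) (l' : Fin (L + 1)), l' ≠ l₀.succAbove l →
      ¬ p l ∣ (A l' * k + B l').natAbs := by
    intro l l' hl' h1
    have h2 : (p l : ℤ) ∣ A (l₀.succAbove l) * k + B (l₀.succAbove l) :=
      Int.natCast_dvd.2 (hdvd l)
    have h3 : (p l : ℤ) ∣ A l' * k + B l' := Int.natCast_dvd.2 h1
    have h4 : (p l : ℤ) ∣ A l' * B (l₀.succAbove l) - A (l₀.succAbove l) * B l' := by
      have h5 : A l' * B (l₀.succAbove l) - A (l₀.succAbove l) * B l' =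
          A l' * (A (l₀.succAbove l) * k + B (l₀.succAbove l)) -
            A (l₀.succAbove l) * (A l' * k + B l') := by ring
      rw [h5]
      exact dvd_sub (Dvd.dvd.mul_left h2 _) (Dvd.dvd.mul_left h3 _)
    have h5 := Nat.le_of_dvd (Int.natAbs_pos.2 (hAB l' _ hl')) (Int.natCast_dvd.1 h4)
    have h6 := hDle l' (l₀.succAbove l)
    have h7 := hpD l
    omega
  -- the valuations
  set v : Fin L → ℕ := fun l =>
    (A (l₀.succAbove l) * k + B (l₀.succAbove l)).natAbs.factorization (p l) with hv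
  have hv1 : ∀ l, 1 ≤ v l := by
    intro l
    rcases Nat.eq_zero_or_pos (v l) with h1 | h1
    · exact absurd (by change b ∣ v l; rw [h1]; exact dvd_zero _) (hpb l)
    · exact h1
  have hpD₁ : ∀ l, D₁ < p l := fun l => by
    have := hpD l
    omega
  have hfe : ∀ (l : Fin L) (i : α), (F k i).factorization (p l) =
      e (l₀.succAbove l) i * v l := fun l i =>
    (hF k hkE i).2 _ _ (hp l) (hpD₁ l) (hdvd l) (hother l)
  have hfa : ∀ (l : Fin L) (j : Fin q), (F' k j).factorization (p l) =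
      a (l₀.succAbove l) j * v l := fun l j =>
    (hF' k hkE j).2 _ _ (hp l) (hpD₁ l) (hdvd l) (hother l)
  refine ⟨fun j => (hF' k hkE j).1, p, fun l => ⟨hp l, ?_, l₀.succAbove l,
    Int.natCast_dvd.2 (hdvd l)⟩, ?_, ?_, ?_⟩
  · have := hpD l
    omega
  · intro l i
    rw [hfe]
    obtain ⟨h1, h2⟩ := hea.1 (l₀.succAbove l) i
    refine ⟨h1.trans (Nat.le_mul_of_pos_right _ (hv1 l)), fun h3 => ?_⟩
    rcases (Nat.Prime.dvd_mul hb).1 h3 with h4 | h4
    · exact h2 h4
    · exact hpb l h4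
  · intro l i j hij h1
    rw [hfe, hfe] at h1
    apply hea.2.1 (l₀.succAbove l) i j hij
    have h2 : e (l₀.succAbove l) i * v l ≡ e (l₀.succAbove l) j * v l [MOD b] :=
      Nat.ModEq.of_mul_left 2 h1
    refine Nat.ModEq.cancel_right_of_coprime ?_ h2
    exact (Nat.Prime.coprime_iff_not_dvd hb).2 (hpb l)
  · intro I hI β hβ
    refine hea.2.2 (I.map l₀.succAboveEmb) (by rw [Finset.card_map, hI]) β ?_
    intro l' hl'
    obtain ⟨l, hl, rfl⟩ := Finset.mem_map.1 hl'
    have h1 := hβ l hl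
    have h2 : (v l : ℤ) * ∑ j, β j * (a (l₀.succAbove l) j : ℤ) = 0 := by
      rw [← h1, Finset.mul_sum]
      refine Finset.sum_congr rfl fun j _ => ?_
      rw [hfa]
      push_cast
      ring
    rcases mul_eq_zero.1 h2 with h3 | h3
    · have := hv1 l
      omega
    · exact h3

end Pool.Agent.K34TH
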