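import Pool.Agent.W466.EF

/-!
# Good valuation rings for families of projective sets near given members
-/

set_option autoImplicit false

open Function MvPolynomial

namespace Pool.Agent.K34TH

open Pool.Agent.W466.ZC Pool.Agent.W466.EP

/-- The member at `t` of a form whose coefficients are polynomials. -/
noncomputable def sp {σ R : Type*} [CommSemiring R] (t : R)
    (P : MvPolynomial σ (Polynomial R)) : MvPolynomial σ R :=
  MvPolynomial.map (Polynomial.evalRingHom t) P

variable {k : Type} [Field k] [Algebra k ℂ] {σ : Type*} [Fintype σ]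

theorem certF [IsAlgClosed k] {β κ : Type*} [Fintype β] (G : κ → MvPolynomial σ k)
    (F : β → MvPolynomial σ k)
    (hs : ∀ y : σ → ℂ, (∀ i, aeval y (G i) = 0) → (∀ b, aeval y (F b) = 0) → y = 0) :
    ∃ (M : ℕ) (U : σ → β → MvPolynomial σ k) (H : σ → κ →₀ MvPolynomial σ k),
      ∀ (z : σ → ℂ) (j : σ), z j ^ M = ∑ b, aeval z (U j b) * aeval z (F b) +
        ∑ i ∈ (H j).support, aeval z (H j i) * aeval z (G i) := by
  classical
  let J1 : Ideal (MvPolynomial σ k) := Ideal.span (Set.range F)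
  let J2 : Ideal (MvPolynomial σ k) := Ideal.span (Set.range G)
  have hrad : ∀ j, X j ∈ (J1 ⊔ J2).radical := by
    intro j
    rw [← vanishingIdeal_zeroLocus_eq_radical (K := k), mem_vanishingIdeal_iff]
    intro y hy
    rw [mem_zeroLocus_iff] at hy
    have hmap : ∀ P : MvPolynomial σ k, aeval (fun j => algebraMap k ℂ (y j)) P =
        algebraMap k ℂ (aeval y P) := by
      intro P
      exact MvPolynomial.aeval_algebraMap_apply ℂ y P
    have hy0 : (fun j => algebraMap k ℂ (y j)) = 0 := by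
      apply hs
      · intro i
        rw [hmap, hy _ (Ideal.mem_sup_right (Ideal.subset_span ⟨i, rfl⟩)), map_zero]
      · intro b
        rw [hmap, hy _ (Ideal.mem_sup_left (Ideal.subset_span ⟨b, rfl⟩)), map_zero]
    rw [aeval_X]
    have h1 := congrFun hy0 j
    rw [Pi.zero_apply] at h1
    exact (map_eq_zero _).1 h1
  choose Mj hMj using hrad
  have h1 : ∀ j, (X j : MvPolynomial σ k) ^ (∑ j, Mj j) ∈ J1 ⊔ J2 := by
    intro j
    have h2 : ∑ j, Mj j = Mj j + (∑ j, Mj j - Mj j) :=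
      (Nat.add_sub_cancel' (Finset.single_le_sum (f := Mj) (fun i _ => Nat.zero_le _)
        (Finset.mem_univ j))).symm
    rw [h2, pow_add]
    exact Ideal.mul_mem_right _ _ (hMj j)
  have h2 : ∀ j, ∃ (U : β → MvPolynomial σ k) (H : κ →₀ MvPolynomial σ k), ∀ z : σ → ℂ,
      z j ^ (∑ j, Mj j) = ∑ b, aeval z (U b) * aeval z (F b) +
        ∑ i ∈ H.support, aeval z (H i) * aeval z (G i) := by
    intro j
    obtain ⟨u, hu, w, hw, huw⟩ := Submodule.mem_sup.1 (h1 j)
    obtain ⟨A, hA⟩ := (Ideal.mem_span_range_iff_exists_fun).1 hu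
    obtain ⟨H, hH⟩ := Finsupp.mem_ideal_span_range_iff_exists_finsupp.1 hw
    refine ⟨A, H, fun z => ?_⟩
    have h4 := congrArg (aeval z : MvPolynomial σ k →ₐ[k] ℂ) huw
    rw [map_add, ← hA, ← hH, map_sum, Finsupp.sum, map_sum, map_pow, aeval_X] at h4
    rw [← h4]
    congr 1
    · exact Finset.sum_congr rfl fun b _ => map_mul _ _ _
    · exact Finset.sum_congr rfl fun b _ => map_mul _ _ _
  choose U H hUH using h2
  exact ⟨∑ j, Mj j, U, H, fun z j => hUH j z⟩

/-- the coefficients of a form -/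
noncomputable def coefs {R : Type} [CommSemiring R] (P : MvPolynomial σ R) : Finset R := by
  classical exact P.support.image (fun u => P.coeff u)

/-- the coefficients of the coefficients -/
noncomputable def coefsP {R : Type} [CommSemiring R] (P : MvPolynomial σ (Polynomial R)) :
    Finset R := by
  classical exact P.support.biUnion (fun u => (P.coeff u).support.image
    (fun n => (P.coeff u).coeff n))

omit [Fintype σ] [Algebra k ℂ] in
theorem mem_coefs {P : MvPolynomial σ k} {u : σ →₀ ℕ} (hu : u ∈ P.support) :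
    P.coeff u ∈ coefs P := by
  classical
  unfold coefs
  exact Finset.mem_image.2 ⟨u, hu, rfl⟩

omit [Fintype σ] [Algebra k ℂ] in
theorem mem_coefsP {P : MvPolynomial σ (Polynomial k)} {u : σ →₀ ℕ} (hu : u ∈ P.support) {n : ℕ}
    (hn : n ∈ (P.coeff u).support) : (P.coeff u).coeff n ∈ coefsP P := by
  classical
  unfold coefsP
  exact Finset.mem_biUnion.2 ⟨u, hu, Finset.mem_image.2 ⟨n, hn, rfl⟩⟩

omit [Fintype σ] in
theorem sp_val (V : ValuationSubring ℂ) (P : MvPolynomial σ (Polynomial k))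
    (hP : ∀ c ∈ coefsP P, algebraMap k ℂ c ∈ V) {t r : k} (hr : algebraMap k ℂ r ∈ V)
    (ht : V.valuation (algebraMap k ℂ t - algebraMap k ℂ r) < 1) {z : σ → ℂ}
    (hz : ∀ j, z j ∈ V) :
    V.valuation (aeval z (sp t P) - aeval z (sp r P)) < 1 ∧ aeval z (sp r P) ∈ V ∧
      aeval z (sp t P) ∈ V := by
  classical
  set v := V.valuation with hv
  set τ := algebraMap k ℂ t with hτ
  set ρ := algebraMap k ℂ r with hρ
  have hτV : τ ∈ V := by
    have h1 : τ - ρ ∈ V := by
      rw [← ValuationSubring.valuation_le_one_iff]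
      exact ht.le
    have h2 := V.add_mem _ _ h1 hr
    rwa [sub_add_cancel] at h2
  have hev : ∀ s : k, aeval z (sp s P) = ∑ d ∈ P.support,
      algebraMap k ℂ ((P.coeff d).eval s) * ∏ i ∈ d.support, z i ^ d i := by
    intro s
    unfold sp
    rw [aeval_def, eval₂_map, eval₂_eq]
    rfl
  have hpol : ∀ (c : Polynomial k) (s : k), algebraMap k ℂ (c.eval s) =
      ∑ n ∈ c.support, algebraMap k ℂ (c.coeff n) * (algebraMap k ℂ s) ^ n := by
    intro c s
    rw [Polynomial.eval_eq_sum, Polynomial.sum, map_sum]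
    exact Finset.sum_congr rfl fun n _ => by rw [map_mul, map_pow]
  have hpow : ∀ n : ℕ, v (τ ^ n - ρ ^ n) < 1 := by
    intro n
    induction n with
    | zero => simp
    | succ n ih =>
      have h1 : τ ^ (n + 1) - ρ ^ (n + 1) = τ ^ n * (τ - ρ) + (τ ^ n - ρ ^ n) * ρ := by ring
      rw [h1]
      refine Valuation.map_add_lt _ ?_ ?_
      · rw [map_mul]
        exact (mul_le_of_le_one_left' ((ValuationSubring.valuation_le_one_iff _ _).2
          (pow_mem hτV n))).trans_lt ht
      · rw [map_mul]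
        exact (mul_le_of_le_one_right' ((ValuationSubring.valuation_le_one_iff _ _).2
          hr)).trans_lt ih
  have hmon : ∀ d : σ →₀ ℕ, (∏ i ∈ d.support, z i ^ d i) ∈ V := fun d =>
    prod_mem fun i _ => pow_mem (hz i) _
  have hmem : ∀ s : k, algebraMap k ℂ s ∈ V → aeval z (sp s P) ∈ V := by
    intro s hs
    rw [hev]
    refine sum_mem fun d hd => mul_mem ?_ (hmon d)
    rw [hpol]
    exact sum_mem fun n hn => mul_mem (hP _ (mem_coefsP hd hn)) (pow_mem hs n)
  refine ⟨?_, hmem r hr, hmem t hτV⟩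
  rw [hev, hev, ← Finset.sum_sub_distrib]
  refine Valuation.map_sum_lt _ one_ne_zero fun d hd => ?_
  rw [← sub_mul, map_mul]
  refine (mul_le_of_le_one_right' ((ValuationSubring.valuation_le_one_iff _ _).2
    (hmon d))).trans_lt ?_
  rw [hpol, hpol, ← Finset.sum_sub_distrib]
  refine Valuation.map_sum_lt _ one_ne_zero fun n hn => ?_
  rw [← mul_sub, map_mul]
  exact (mul_le_of_le_one_left' ((ValuationSubring.valuation_le_one_iff _ _).2
    (hP _ (mem_coefsP hd hn)))).trans_lt (hpow n)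

/-- Good valuation rings near the members at `r l`. -/
theorem goodF [IsAlgClosed k] [CharZero k] {κ β : Type*} [Fintype β] {m : ℕ}
    (G : κ → MvPolynomial σ (Polynomial k))
    (hhom : ∀ i, ∃ e, (G i).IsHomogeneous e) (A B : β → MvPolynomial σ (Polynomial k))
    {Λ : ℕ} (r : Fin Λ → k)
    (hdis : ∀ l, ∀ I : Finset β, I.card = m + 1 → ∀ y : σ → ℂ,
      (∀ i, aeval y (sp (r l) (G i)) = 0) →
      (∀ i ∈ I, aeval y (sp (r l) (A i)) * aeval y (sp (r l) (B i)) = 0) → y = 0)
    {ι : Type} [Finite ι] (Γ : ι → k) :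
    ∃ M D : ℕ, ∀ p : ℕ, p.Prime → D < p → ∀ (τ : Type) (x : τ → ℂ), AlgebraicIndependent k x →
      ∃ V : ValuationSubring ℂ, (p : ℂ) ∈ V.nonunits ∧ (∀ i, algebraMap k ℂ (Γ i) ∈ V) ∧
      (∀ j, V.valuation (x j) = 1) ∧
      (∀ z ∈ Subfield.closure (Set.range Γ), z ≠ 0 → ∃ h : ℕ, 0 < h ∧ h ≤ M ∧ ∃ i : ℤ,
          V.valuation (algebraMap k ℂ z) ^ h = V.valuation (p : ℂ) ^ i) ∧
      ∀ (t : k) (l : Fin Λ), V.valuation (algebraMap k ℂ t - algebraMap k ℂ (r l)) < 1 →
        ∀ y : σ → ℂ, y ≠ 0 → (∀ i, aeval y (sp t (G i)) = 0) →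
        ∃ c : ℂ, c ≠ 0 ∧
          (∀ i, aeval (c • y) (sp t (A i)) ∈ V ∧ aeval (c • y) (sp t (B i)) ∈ V) ∧
          ∀ I : Finset β, I.card = m + 1 → ∃ i ∈ I,
            V.valuation (aeval (c • y) (sp t (A i)) * aeval (c • y) (sp t (B i))) = 1 := by
  classical
  have hcert := fun (l : Fin Λ) (I : {I : Finset β // I.card = m + 1}) =>
    certF (fun i => sp (r l) (G i)) (fun b : I.1 => sp (r l) (A b) * sp (r l) (B b))
      (fun y hy hb => hdis l I.1 I.2 y hy fun i hi => by
        have := hb ⟨i, hi⟩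
        rwa [map_mul] at this)
  choose M U H hUH using hcert
  let T : Finset k :=
    (Finset.univ.biUnion fun l => Finset.univ.biUnion fun I => Finset.univ.biUnion fun j =>
      (Finset.univ.biUnion fun b => coefs (U l I j b)) ∪
        (H l I j).support.biUnion fun i => coefs (H l I j i) ∪ coefsP (G i)) ∪
      ((Finset.univ.biUnion fun i => coefsP (A i) ∪ coefsP (B i)) ∪ Finset.univ.image r)
  have hU : ∀ l I j b, ∀ c ∈ coefs (U l I j b), c ∈ T := fun l I j b c hc =>
    Finset.mem_union_left _ (Finset.mem_biUnion.2 ⟨l, Finset.mem_univ _, Finset.mem_biUnion.2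
      ⟨I, Finset.mem_univ _, Finset.mem_biUnion.2 ⟨j, Finset.mem_univ _, Finset.mem_union_left _
        (Finset.mem_biUnion.2 ⟨b, Finset.mem_univ _, hc⟩)⟩⟩⟩)
  have hH : ∀ l I j, ∀ i ∈ (H l I j).support, ∀ c ∈ coefs (H l I j i) ∪ coefsP (G i), c ∈ T :=
    fun l I j i hi c hc =>
    Finset.mem_union_left _ (Finset.mem_biUnion.2 ⟨l, Finset.mem_univ _, Finset.mem_biUnion.2
      ⟨I, Finset.mem_univ _, Finset.mem_biUnion.2 ⟨j, Finset.mem_univ _, Finset.mem_union_right _
        (Finset.mem_biUnion.2 ⟨i, hi, hc⟩)⟩⟩⟩)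
  have hAB : ∀ i, ∀ c ∈ coefsP (A i) ∪ coefsP (B i), c ∈ T := fun i c hc =>
    Finset.mem_union_right _ (Finset.mem_union_left _ (Finset.mem_biUnion.2
      ⟨i, Finset.mem_univ _, hc⟩))
  have hrT : ∀ l, r l ∈ T := fun l =>
    Finset.mem_union_right _ (Finset.mem_union_right _ (Finset.mem_image_of_mem r
      (Finset.mem_univ l)))
  obtain ⟨M', D, hD⟩ := exists_val2 (Sum.elim (Subtype.val : T → k) Γ)
  refine ⟨M', D, fun p hp hpD τ x hx => ?_⟩
  obtain ⟨V, hV, hVt, hVx, hram⟩ := hD p hp hpD τ x hx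
  have hVT : ∀ c ∈ T, algebraMap k ℂ c ∈ V := fun c hc => hVt (Sum.inl ⟨c, hc⟩)
  refine ⟨V, hV, fun i => hVt (Sum.inr i), hVx, ?_, fun t l htl y hy0 hyG => ?_⟩
  · intro z hz hz0
    refine hram z ?_ hz0
    refine Subfield.closure_mono ?_ hz
    rintro _ ⟨i, rfl⟩
    exact ⟨Sum.inr i, rfl⟩
  set v := V.valuation with hv
  have hne : (Finset.univ : Finset σ).Nonempty := by
    by_contra h
    rw [Finset.not_nonempty_iff_eq_empty, Finset.univ_eq_empty_iff] at h
    exact hy0 (funext fun j => (h.false j).elim)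
  obtain ⟨j0, -, hj0⟩ := Finset.exists_max_image Finset.univ (fun j => v (y j)) hne
  have hyj0 : y j0 ≠ 0 := by
    intro h
    apply hy0
    funext j
    have h1 := hj0 j (Finset.mem_univ j)
    simp only [h, map_zero, le_zero_iff] at h1
    exact (map_eq_zero v).1 h1
  set z := (y j0)⁻¹ • y with hz
  have hzV : ∀ j, z j ∈ V := by
    intro j
    rw [← ValuationSubring.valuation_le_one_iff, hz, Pi.smul_apply, smul_eq_mul, map_mul, map_inv₀]
    have h1 := hj0 j (Finset.mem_univ j)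
    have h2 : v (y j0) ≠ 0 := (map_ne_zero v).2 hyj0
    calc (v (y j0))⁻¹ * v (y j) ≤ (v (y j0))⁻¹ * v (y j0) := mul_le_mul_right h1 _
      _ = 1 := inv_mul_cancel₀ h2
  have hzG : ∀ i, aeval z (sp t (G i)) = 0 := by
    intro i
    obtain ⟨e, he⟩ := hhom i
    have he' : (sp t (G i)).IsHomogeneous e := he.map _
    rw [hz, aeval_smul' he', hyG i, mul_zero]
  have hspA := fun i => sp_val V (A i) (fun c hc => hVT c (hAB i c (Finset.mem_union_left _ hc)))
    (hVT _ (hrT l)) htl hzV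
  have hspB := fun i => sp_val V (B i) (fun c hc => hVT c (hAB i c (Finset.mem_union_right _ hc)))
    (hVT _ (hrT l)) htl hzV
  refine ⟨(y j0)⁻¹, inv_ne_zero hyj0, fun i => ⟨(hspA i).2.2, (hspB i).2.2⟩, ?_⟩
  intro I hI
  by_contra hcon
  push Not at hcon
  have hlt : ∀ i ∈ I, v (aeval z (sp t (A i)) * aeval z (sp t (B i))) < 1 := by
    intro i hi
    refine lt_of_le_of_ne ?_ (hcon i hi)
    rw [ValuationSubring.valuation_le_one_iff]
    exact mul_mem (hspA i).2.2 (hspB i).2.2
  have hle : ∀ {x : ℂ}, x ∈ V → v x ≤ 1 := fun {x} hx =>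
    (ValuationSubring.valuation_le_one_iff V x).2 hx
  have hlt' : ∀ i ∈ I, v (aeval z (sp (r l) (A i)) * aeval z (sp (r l) (B i))) < 1 := by
    intro i hi
    have e1 : aeval z (sp (r l) (A i)) * aeval z (sp (r l) (B i)) =
        aeval z (sp t (A i)) * aeval z (sp t (B i)) -
          ((aeval z (sp t (A i)) - aeval z (sp (r l) (A i))) * aeval z (sp t (B i)) +
            aeval z (sp (r l) (A i)) * (aeval z (sp t (B i)) - aeval z (sp (r l) (B i)))) := by
      ring
    rw [e1]
    refine Valuation.map_sub_lt _ (hlt i hi) (Valuation.map_add_lt _ ?_ ?_)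
    · rw [map_mul]
      exact (mul_le_of_le_one_right' (hle (hspB i).2.2)).trans_lt (hspA i).1
    · rw [map_mul]
      exact (mul_le_of_le_one_left' (hle (hspA i).2.1)).trans_lt (hspB i).1
  have h1 := hUH l ⟨I, hI⟩ z j0
  have h2 : z j0 = 1 := by
    rw [hz, Pi.smul_apply, smul_eq_mul, inv_mul_cancel₀ hyj0]
  rw [h2, one_pow] at h1
  have h3 : v (∑ b : I, aeval z (U l ⟨I, hI⟩ j0 b) *
      aeval z (sp (r l) (A b) * sp (r l) (B b)) +
      ∑ i ∈ (H l ⟨I, hI⟩ j0).support, aeval z (H l ⟨I, hI⟩ j0 i) *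
        aeval z (sp (r l) (G i))) < 1 := by
    refine Valuation.map_add_lt _ (Valuation.map_sum_lt _ one_ne_zero fun b _ => ?_)
      (Valuation.map_sum_lt _ one_ne_zero fun i hi => ?_)
    · have e1 : aeval z (sp (r l) (A b) * sp (r l) (B b)) =
        aeval z (sp (r l) (A b)) * aeval z (sp (r l) (B b)) := map_mul _ _ _
      rw [map_mul, e1]
      exact (mul_le_of_le_one_left' (hle (aeval_mem V _
        (fun u hu => hVT _ (hU l ⟨I, hI⟩ j0 b _ (mem_coefs hu))) hzV))).trans_lt (hlt' b b.2)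
    · rw [map_mul]
      refine (mul_le_of_le_one_left' (hle (aeval_mem V _
        (fun u hu => hVT _ (hH l ⟨I, hI⟩ j0 i hi _ (Finset.mem_union_left _ (mem_coefs hu))))
          hzV))).trans_lt ?_
      have h4 := (sp_val V (G i) (fun c hc => hVT c (hH l ⟨I, hI⟩ j0 i hi _
        (Finset.mem_union_right _ hc))) (hVT _ (hrT l)) htl hzV).1
      rw [hzG i, zero_sub, Valuation.map_neg] at h4
      exact h4
  rw [← h1, map_one] at h3
  exact lt_irrefl _ h3

end Pool.Agent.K34TH
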