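import Pool.Agent.K34TH.MainF

/-!
# Families of subvarieties of `∏_g E_g^(n_g) × G_m^q` near given members: any field of constants

The argument is that of `Pool.Agent.W466.EL`, for families.
-/

set_option autoImplicit false

open MvPolynomial

namespace Pool.Agent.K34TH

open Pool.Agent.W466.EP Pool.Agent.W466.ZC WeierstrassCurve WeierstrassCurve.Affine

theorem sp_map {σ R S : Type*} [CommSemiring R] [CommSemiring S] (φ : R →+* S) (t : R)
    (P : MvPolynomial σ (Polynomial R)) :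
    sp (φ t) (MvPolynomial.map (Polynomial.mapRingHom φ) P) = MvPolynomial.map φ (sp t P) := by
  have h : (Polynomial.evalRingHom (φ t)).comp (Polynomial.mapRingHom φ) =
      φ.comp (Polynomial.evalRingHom t) := by
    apply Polynomial.ringHom_ext
    · intro x
      simp
    · simp
  unfold sp
  rw [MvPolynomial.map_map, MvPolynomial.map_map, h]

theorem mainFK (K : Subfield ℂ) {κ : Type*}
    {N r q m : ℕ} {n : Fin r → ℕ} (G : κ → MvPolynomial (Fin (N + 1)) (Polynomial K))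
    (hG : ∀ i, ∃ e, (G i).IsHomogeneous e)
    (a b : ((g : Fin r) × Fin (n g)) ⊕ Fin q → MvPolynomial (Fin (N + 1)) (Polynomial K))
    (dg : ((g : Fin r) × Fin (n g)) ⊕ Fin q → ℕ) (ha : ∀ i, (a i).IsHomogeneous (dg i))
    (hb : ∀ i, (b i).IsHomogeneous (dg i)) {Λ : ℕ} (rr : Fin Λ → K)
    (hdis : ∀ l, ∀ I : Finset (((g : Fin r) × Fin (n g)) ⊕ Fin q), I.card = m + 1 →
      ∀ y : Fin (N + 1) → ℂ,
      (∀ i, aeval y (sp (rr l) (G i)) = 0) →
      (∀ i ∈ I, aeval y (sp (rr l) (a i)) * aeval y (sp (rr l) (b i)) = 0) → y = 0)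
    (Γ : Finset ℂ) (hΓ : ∀ γ ∈ Γ, γ ∈ K) (A B : Fin r → ℂ) (hA : ∀ g, A g ∈ Γ)
    (hB : ∀ g, B g ∈ Γ) :
    ∃ M D : ℕ, ∀ b₀ : ℕ, b₀.Prime → M < b₀ → ∀ (t₀ : K) (Nn : (g : Fin r) × Fin (n g) → ℕ)
      (d : Fin q → ℕ), SpreadN q D b₀ (fun p => ∃ l', ∀ V : ValuationSubring ℂ,
        (p : ℂ) ∈ V.nonunits → V.valuation ((t₀ : ℂ) - (rr l' : ℂ)) < 1) Nn d →
      ∀ c : (g : Fin r) × Fin (n g) → ℂ, (∀ i, c i ^ b₀ = (Nn i : ℂ)) →
      ∀ (P : ∀ g, Fin (n g) → (crv (A g) (B g)).Point) (u : Fin q → ℂ),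
      ∀ y : Fin (N + 1) → ℂ, y ≠ 0 → (∀ i, aeval y (sp t₀ (G i)) = 0) →
      (∀ i, (P i.1 i.2 = 0 ∧ aeval y (sp t₀ (b (Sum.inl i))) = 0) ∨
        c i * aeval y (sp t₀ (b (Sum.inl i))) * xx (P i.1 i.2) =
          aeval y (sp t₀ (a (Sum.inl i)))) →
      (∀ j, (d j : ℂ) * aeval y (sp t₀ (b (Sum.inr j))) * u j =
        aeval y (sp t₀ (a (Sum.inr j)))) →
      ∀ (M₁ : ∀ g, Submodule ℤ (Fin (n g) → ℤ)) (M₂ : Submodule ℤ (Fin q → ℤ)),
      (∀ g, ∀ r ∈ M₁ g, ∃ t : ℕ, 0 < t ∧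
        Rat (Subfield.closure (Γ : Set ℂ)) (t • ∑ i, r i • P g i)) →
      (∀ r ∈ M₂, ∀ V : ValuationSubring ℂ, (∀ γ ∈ Γ, γ ∈ V) →
        V.valuation (∏ j, u j ^ r j) = 1) →
      ∀ S : Finset (((g : Fin r) × Fin (n g)) ⊕ Fin q),
        AlgebraicIndependent K (fun s : S => co P u s) →
        S.card + ∑ g, Module.finrank ℤ (M₁ g) + Module.finrank ℤ M₂ ≤ m := by
  classical
  let k := algebraicClosure K ℂ
  have hcl : IsAlgClosure K k := inferInstance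
  have hac : IsAlgClosed k := hcl.isAlgClosed
  have hmap : ∀ (y : Fin (N + 1) → ℂ) (t : K) (P : MvPolynomial (Fin (N + 1)) (Polynomial K)),
      aeval y (sp (algebraMap K k t)
        (MvPolynomial.map (Polynomial.mapRingHom (algebraMap K k)) P)) = aeval y (sp t P) :=
    fun y t P => by
      rw [sp_map]
      exact MvPolynomial.aeval_map_algebraMap k y (sp t P)
  let Γ' : Γ → k := fun γ => algebraMap K k ⟨γ, hΓ γ γ.2⟩
  have hΓ' : ∀ γ : Γ, algebraMap k ℂ (Γ' γ) = γ := fun γ => rfl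
  have hcl' : (Subfield.closure (Set.range Γ')).map (algebraMap k ℂ) =
      Subfield.closure (Γ : Set ℂ) := by
    rw [RingHom.map_field_closure]
    congr 1
    ext z
    constructor
    · rintro ⟨_, ⟨g, rfl⟩, rfl⟩
      exact g.2
    · intro hz
      exact ⟨_, ⟨⟨z, hz⟩, rfl⟩, rfl⟩
  obtain ⟨M, D, hD⟩ := mainF (k := k) (m := m)
    (fun i => MvPolynomial.map (Polynomial.mapRingHom (algebraMap K k)) (G i))
    (fun i => by
      obtain ⟨e, he⟩ := hG i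
      exact ⟨e, he.map _⟩)
    (fun i => MvPolynomial.map (Polynomial.mapRingHom (algebraMap K k)) (a i))
    (fun i => MvPolynomial.map (Polynomial.mapRingHom (algebraMap K k)) (b i)) dg
    (fun i => (ha i).map _) (fun i => (hb i).map _) (fun l => algebraMap K k (rr l))
    (fun l I hI y h1 h2 => hdis l I hI y (fun i => by rw [← hmap]; exact h1 i)
      (fun i hi => by rw [← hmap, ← hmap y _ (b i)]; exact h2 i hi)) Γ'
      (fun g => Γ' ⟨A g, hA g⟩) (fun g => Γ' ⟨B g, hB g⟩)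
      (fun _ => ⟨_, rfl⟩) (fun _ => ⟨_, rfl⟩)
  refine ⟨M, D, fun b₀ hb₀ hM t₀ Nn d hsp c hc P u y hy0 hyG hP hu M₁ M₂ hM₁ hM₂ S hS => ?_⟩
  refine hD b₀ hb₀ hM (algebraMap K k t₀) _ _ _ (fun i => rfl) (fun i => rfl) (fun i => rfl)
    Nn d hsp c hc P u y hy0 (fun i => (hmap y t₀ _).trans (hyG i)) ?_ ?_ M₁ M₂
    ?_ ?_ S (hS.extendScalars k)
  · intro i
    rw [hmap, hmap]
    exact hP i
  · intro j
    rw [hmap, hmap]
    exact hu j
  · rw [hcl']
    exact hM₁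
  · intro r hr V hV
    refine hM₂ r hr V fun γ hγ => ?_
    exact hV ⟨γ, hγ⟩

end Pool.Agent.K34TH
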