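import Pool.Agent.K34TH.Core

/-!
# Values of polynomials with prescribed multiplicities at rational roots
-/

set_option autoImplicit false

open Polynomial

namespace Pool.Agent.K34TH

/-- The multiplicity of the rational number `r` as a root of `P`. -/
noncomputable def ordAt (r : ℚ) (P : ℤ[X]) : ℕ := (P.map (Int.castRingHom ℚ)).rootMultiplicity r

theorem factor {P : ℤ[X]} (hP : P ≠ 0) {L : ℕ} {r : Fin L → ℚ} (hr : Function.Injective r) :
    ∃ (N : ℤ) (Q : ℤ[X]), N ≠ 0 ∧ (∀ l, aeval (r l) Q ≠ 0) ∧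
      ∀ k : ℤ, N * P.eval k =
        (∏ l, (((r l).den : ℤ) * k + -(r l).num) ^ ordAt (r l) P) * Q.eval k := by
  classical
  have hinj : Function.Injective (Int.castRingHom ℚ) := Int.cast_injective
  set p : ℚ[X] := P.map (Int.castRingHom ℚ) with hp
  have hp0 : p ≠ 0 := (Polynomial.map_ne_zero_iff hinj).2 hP
  have h1 : (∏ l, (X - C (r l)) ^ ordAt (r l) P) ∣ p := by
    refine Finset.prod_dvd_of_coprime ?_ fun l _ => pow_rootMultiplicity_dvd p (r l)
    intro l _ l' _ hne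
    exact (isCoprime_X_sub_C_of_isUnit_sub (sub_ne_zero.2 (hr.ne hne)).isUnit).pow
  obtain ⟨q, hq⟩ := h1
  have hq0 : ∀ l, q.eval (r l) ≠ 0 := by
    intro l h0
    obtain ⟨s, hs⟩ := dvd_iff_isRoot.2 h0
    have h2 : (X - C (r l)) ^ (ordAt (r l) P + 1) ∣ p := by
      rw [hq, hs, ← Finset.mul_prod_erase Finset.univ _ (Finset.mem_univ l), pow_succ]
      exact ⟨(∏ x ∈ Finset.univ.erase l, (X - C (r x)) ^ ordAt (r x) P) * s, by ring⟩
    have h3 := (le_rootMultiplicity_iff hp0).2 h2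
    have h4 : ordAt (r l) P = p.rootMultiplicity (r l) := rfl
    omega
  obtain ⟨b, hb⟩ := IsLocalization.integerNormalization_map_to_map (nonZeroDivisors ℤ) q
  set Q : ℤ[X] := IsLocalization.integerNormalization (nonZeroDivisors ℤ) q with hQ
  have hb0 : (b : ℤ) ≠ 0 := nonZeroDivisors.ne_zero b.2
  have hQe : ∀ x : ℚ, aeval x Q = (b : ℤ) * q.eval x := by
    intro x
    rw [aeval_def, ← eval_map, hb, Algebra.smul_def, eval_mul]
    simp
  refine ⟨(b : ℤ) * ∏ l, ((r l).den : ℤ) ^ ordAt (r l) P, Q, ?_, ?_, ?_⟩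
  · refine mul_ne_zero hb0 (Finset.prod_ne_zero_iff.2 fun l _ => pow_ne_zero _ ?_)
    exact_mod_cast (r l).den_ne_zero
  · intro l
    rw [hQe]
    exact mul_ne_zero (by exact_mod_cast hb0) (hq0 l)
  · intro k
    have h2 : ((P.eval k : ℤ) : ℚ) = p.eval (k : ℚ) := by
      rw [hp, eval_intCast_map]
      rfl
    have h3 : ((Q.eval k : ℤ) : ℚ) = (b : ℤ) * q.eval (k : ℚ) := by
      rw [← hQe, aeval_def, eval₂_at_intCast]
      simp
    have h4 : p.eval (k : ℚ) = (∏ l, ((k : ℚ) - r l) ^ ordAt (r l) P) * q.eval (k : ℚ) := by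
      conv_lhs => rw [hq]
      rw [eval_mul, eval_prod]
      simp
    have h5 : ∀ l, (((r l).den : ℚ) * k + -((r l).num : ℚ)) = (r l).den * ((k : ℚ) - r l) := by
      intro l
      have h6 : (r l) * (r l).den = (r l).num := Rat.mul_den_eq_num (r l)
      rw [mul_sub, ← h6]
      ring
    have h7 : (((b : ℤ) * (∏ l, ((r l).den : ℤ) ^ ordAt (r l) P) * P.eval k : ℤ) : ℚ) =
        (((∏ l, (((r l).den : ℤ) * k + -(r l).num) ^ ordAt (r l) P) * Q.eval k : ℤ) : ℚ) := by
      push_cast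
      rw [h2, h3, h4]
      simp_rw [h5, mul_pow]
      rw [Finset.prod_mul_distrib]
      ring
    exact_mod_cast h7

theorem mult_eval {P : ℤ[X]} (hP : P ≠ 0) {L : ℕ} {r : Fin L → ℚ} (hr : Function.Injective r) :
    ∃ D₁ : ℕ, ∀ D₂ : ℕ, D₁ ≤ D₂ → ∀ k : ℤ, P.eval k ≠ 0 →
      Mult D₂ (fun l => ((r l).den : ℤ)) (fun l => -(r l).num) k (P.eval k).natAbs
        (fun l => ordAt (r l) P) := by
  classical
  obtain ⟨N, Q, hN, hQ, hev⟩ := factor hP hr
  -- the integers `den ^ deg * Q (r l)`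
  set ρ : Fin L → ℤ := fun l => (scaleRoots Q ((r l).den : ℤ)).eval (r l).num with hρ
  have hρ0 : ∀ l, ρ l ≠ 0 := by
    intro l h0
    have h1 : ((ρ l : ℤ) : ℚ) = ((r l).den : ℚ) ^ Q.natDegree * aeval (r l) Q := by
      have h2 := scaleRoots_eval₂_mul (p := Q) (Int.castRingHom ℚ) (r l) ((r l).den : ℤ)
      have h3 : (Int.castRingHom ℚ) ((r l).den : ℤ) * r l = ((r l).num : ℚ) := by
        rw [← Rat.mul_den_eq_num (r l)]
        simp [mul_comm]
      rw [h3] at h2
      have h4 : eval₂ (Int.castRingHom ℚ) ((r l).num : ℚ) (scaleRoots Q ((r l).den : ℤ)) =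
          ((ρ l : ℤ) : ℚ) := by
        rw [eval₂_at_intCast]
        rfl
      rw [h4] at h2
      rw [h2]
      simp [aeval_def]
    rw [h0, Int.cast_zero] at h1
    have h5 := mul_ne_zero (pow_ne_zero Q.natDegree
      (by exact_mod_cast (r l).den_ne_zero : ((r l).den : ℚ) ≠ 0)) (hQ l)
    exact h5 h1.symm
  refine ⟨N.natAbs + ∑ l, (ρ l).natAbs, fun D₂ hD k hk => ⟨Int.natAbs_ne_zero.2 hk, ?_⟩⟩
  intro l p hp hpD hdvd hother
  have hNp : ¬ p ∣ N.natAbs := fun h => by
    have := Nat.le_of_dvd (Int.natAbs_pos.2 hN) h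
    omega
  have hρp : ¬ p ∣ (ρ l).natAbs := fun h => by
    have h1 := Nat.le_of_dvd (Int.natAbs_pos.2 (hρ0 l)) h
    have h2 : (ρ l).natAbs ≤ ∑ l, (ρ l).natAbs :=
      Finset.single_le_sum (f := fun l => (ρ l).natAbs) (fun _ _ => Nat.zero_le _)
        (Finset.mem_univ l)
    omega
  have hQp : ¬ (p : ℤ) ∣ Q.eval k := by
    intro h1
    have h2 := sub_dvd_eval_sub (((r l).den : ℤ) * k) (r l).num
      (scaleRoots Q ((r l).den : ℤ))
    have h3 : (scaleRoots Q ((r l).den : ℤ)).eval (((r l).den : ℤ) * k) =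
        ((r l).den : ℤ) ^ Q.natDegree * Q.eval k := by
      have h4 := scaleRoots_eval₂_mul (p := Q) (RingHom.id ℤ) k ((r l).den : ℤ)
      simpa [eval₂_eq_eval_map] using h4
    rw [h3] at h2
    have h5 : (p : ℤ) ∣ ((r l).den : ℤ) * k - (r l).num := by
      rw [sub_eq_add_neg]
      exact Int.natCast_dvd.2 hdvd
    have h6 : (p : ℤ) ∣ ρ l := by
      have h7 := h5.trans h2
      have h8 := dvd_sub (Dvd.dvd.mul_left h1 (((r l).den : ℤ) ^ Q.natDegree)) h7
      rwa [sub_sub_cancel] at h8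
    exact hρp (Int.natCast_dvd.1 h6)
  have hne : ∀ l', ((r l').den : ℤ) * k + -(r l').num ≠ 0 ∨ ordAt (r l') P = 0 := by
    intro l'
    by_contra h0
    push Not at h0
    have h1 := hev k
    rw [Finset.prod_eq_zero (Finset.mem_univ l') (by rw [h0.1]; exact zero_pow h0.2),
      zero_mul] at h1
    exact mul_ne_zero hN hk h1
  have hQk : Q.eval k ≠ 0 := by
    intro h0
    apply hQp
    rw [h0]
    exact dvd_zero _
  have hpow : ∀ l', ((((r l').den : ℤ) * k + -(r l').num) ^ ordAt (r l') P).natAbs ≠ 0 := by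
    intro l'
    rw [Int.natAbs_ne_zero]
    rcases hne l' with h | h
    · exact pow_ne_zero _ h
    · rw [h, pow_zero]
      exact one_ne_zero
  have h1 := congrArg (fun z : ℤ => z.natAbs.factorization p) (hev k)
  simp only [Int.natAbs_mul] at h1
  rw [Nat.factorization_mul (Int.natAbs_ne_zero.2 hN) (Int.natAbs_ne_zero.2 hk),
    Nat.factorization_mul (by
      rw [Int.natAbs_ne_zero]
      exact Finset.prod_ne_zero_iff.2 fun l' _ => Int.natAbs_ne_zero.1 (hpow l'))
      (Int.natAbs_ne_zero.2 hQk), Finsupp.add_apply, Finsupp.add_apply,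
    Nat.factorization_eq_zero_of_not_dvd hNp, zero_add,
    Nat.factorization_eq_zero_of_not_dvd (fun h => hQp (Int.natCast_dvd.2 h)), add_zero] at h1
  rw [h1]
  have h2 : (∏ l', (((r l').den : ℤ) * k + -(r l').num) ^ ordAt (r l') P).natAbs =
      ∏ l', ((((r l').den : ℤ) * k + -(r l').num) ^ ordAt (r l') P).natAbs :=
    map_prod Int.natAbsHom _ _
  rw [h2, Nat.factorization_prod (fun l' _ => hpow l'), Finsupp.finsetSum_apply,
    Finset.sum_eq_single l]
  · rw [Int.natAbs_pow, Nat.factorization_pow, Finsupp.smul_apply, smul_eq_mul]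
  · intro l' _ hl'
    rw [Int.natAbs_pow, Nat.factorization_pow, Finsupp.smul_apply, smul_eq_mul,
      Nat.factorization_eq_zero_of_not_dvd (hother l' hl'), mul_zero]
  · intro h3
    exact absurd (Finset.mem_univ l) h3

end Pool.Agent.K34TH
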