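import Pool.Agent.K34TH.MainFK
import Pool.Agent.K34TH.Poly

/-!
# Nearness of integers to rational numbers at large primes
-/

set_option autoImplicit false

namespace Pool.Agent.K34TH

open Pool.Agent.W466.EP

theorem near_of_dvd {p : ℕ} (hp : p.Prime) (ρ : ℚ) (t : ℤ)
    (h : (p : ℤ) ∣ (ρ.den : ℤ) * t + -ρ.num) (V : ValuationSubring ℂ)
    (hV : (p : ℂ) ∈ V.nonunits) : V.valuation ((t : ℂ) - (ρ : ℂ)) < 1 := by
  have hp1 : V.valuation (p : ℂ) < 1 := by rwa [ValuationSubring.mem_nonunits_iff] at hV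
  have hpd : ¬ p ∣ ρ.den := by
    intro h1
    have h2 : (p : ℤ) ∣ (ρ.den : ℤ) * t := Dvd.dvd.mul_right (Int.natCast_dvd_natCast.2 h1) t
    have h3 : (p : ℤ) ∣ -ρ.num := (dvd_add_right h2).1 h
    have h4 : p ∣ ρ.num.natAbs := Int.natCast_dvd.1 ((dvd_neg).1 h3)
    have h5 : p ∣ Nat.gcd ρ.num.natAbs ρ.den := Nat.dvd_gcd h4 h1
    have h6 : Nat.gcd ρ.num.natAbs ρ.den = 1 := ρ.reduced
    rw [h6] at h5
    exact hp.one_lt.ne' (Nat.dvd_one.1 h5)
  have hden : V.valuation ((ρ.den : ℕ) : ℂ) = 1 := by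
    rw [v_nat_pow hp hp1 ρ.den_ne_zero, Nat.factorization_eq_zero_of_not_dvd hpd, pow_zero]
  obtain ⟨z, hz⟩ := h
  have hzV : ((z : ℤ) : ℂ) ∈ V := intCast_mem V z
  have h1 : ((ρ.den : ℕ) : ℂ) * ((t : ℂ) - (ρ : ℂ)) = (p : ℂ) * (z : ℂ) := by
    have h2 : ((ρ.den : ℕ) : ℂ) * (ρ : ℂ) = (ρ.num : ℂ) := by
      have h3 : (ρ.den : ℚ) * ρ = ρ.num := by rw [mul_comm]; exact Rat.mul_den_eq_num ρ
      exact_mod_cast congrArg (fun x : ℚ => (x : ℂ)) h3
    rw [mul_sub, h2]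
    have h3 : (((ρ.den : ℤ) * t + -ρ.num : ℤ) : ℂ) = ((p * z : ℤ) : ℂ) := by rw [hz]
    push_cast at h3
    rw [← h3]
    ring
  have h2 := congrArg V.valuation h1
  rw [map_mul, hden, one_mul, map_mul] at h2
  rw [h2]
  exact (mul_le_of_le_one_right' ((ValuationSubring.valuation_le_one_iff V _).2 hzV)).trans_lt hp1

theorem SpreadN.mono {α : Type} {q D b : ℕ} {near near' : ℕ → Prop} {N : α → ℕ} {d : Fin q → ℕ}
    (h : SpreadN q D b near N d) (hn : ∀ p : ℕ, p.Prime → near p → near' p) :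
    SpreadN q D b near' N d := by
  obtain ⟨h0, p, h1, h2⟩ := h
  exact ⟨h0, p, fun l => ⟨(h1 l).1, (h1 l).2.1, hn _ (h1 l).1 (h1 l).2.2⟩, h2⟩

/-- The values of polynomials with good orders at rational numbers are spread out. -/
theorem spread_poly {α : Type} [Finite α] (q D : ℕ) {b : ℕ} (hb : b.Prime) (hb3 : 3 ≤ b)
    (ρ : Fin ((q - 1) * 2 ^ q + 2) → ℚ) (hρ : Function.Injective ρ)
    (P : α → Polynomial ℤ) (P' : Fin q → Polynomial ℤ) (hP' : ∀ j, P' j ≠ 0)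
    (hgood : GoodExpF q b (fun l i => ordAt (ρ l) (P i)) (fun l j => ordAt (ρ l) (P' j))) :
    {t : ℤ | ¬ SpreadN q D b (fun p => ∃ l, (p : ℤ) ∣ ((ρ l).den : ℤ) * t + -(ρ l).num)
      (fun i => ((P i).eval t).natAbs) (fun j => ((P' j).eval t).natAbs)}.Finite := by
  classical
  have := Fintype.ofFinite α
  have hP : ∀ i, P i ≠ 0 := by
    intro i h0
    have h1 := (hgood.1 ⟨0, by omega⟩ i).1
    have h2 : ordAt (ρ ⟨0, by omega⟩) (P i) = 0 := by
      rw [h0]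
      simp [ordAt]
    have h3 := hb.pos
    simp only at h1
    omega
  choose D₁ hD₁ using fun i => mult_eval (hP i) hρ
  choose D₂ hD₂ using fun j => mult_eval (hP' j) hρ
  have hE : ((⋃ i, {t : ℤ | (P i).eval t = 0}) ∪ ⋃ j, {t : ℤ | (P' j).eval t = 0}).Finite :=
    (Set.finite_iUnion fun i => (Polynomial.finite_setOf_isRoot (hP i))).union
      (Set.finite_iUnion fun j => (Polynomial.finite_setOf_isRoot (hP' j)))
  refine spread_core q D (∑ i, D₁ i + ∑ j, D₂ j) hb hb3 (fun l => ((ρ l).den : ℤ))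
    (fun l => -(ρ l).num) (fun l => by exact_mod_cast (ρ l).den_ne_zero) ?_ _ _ hgood _ _ _ hE
    ?_ ?_
  · intro l l' hne h0
    apply hne
    apply hρ
    rw [Rat.eq_iff_mul_eq_mul]
    linarith
  · intro t ht i
    refine hD₁ i _ ?_ t ?_
    · have := Finset.single_le_sum (f := D₁) (fun _ _ => Nat.zero_le _) (Finset.mem_univ i)
      omega
    · intro h0
      exact ht (Or.inl (Set.mem_iUnion.2 ⟨i, h0⟩))
  · intro t ht j
    refine hD₂ j _ ?_ t ?_
    · have := Finset.single_le_sum (f := D₂) (fun _ _ => Nat.zero_le _) (Finset.mem_univ j)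
      omega
    · intro h0
      exact ht (Or.inr (Set.mem_iUnion.2 ⟨j, h0⟩))

end Pool.Agent.K34TH
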