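import Pool.Agent.W472.AC.RothThm

/-!
# Thue's theorem for binomial equations

`a x ^ β + b y ^ β = c` has only finitely many solutions in natural numbers if `β ≥ 3` and
`a`, `b`, `c` are nonzero integers, from Roth's theorem.
-/

set_option autoImplicit false

namespace Pool.Agent.K34TH

theorem sub_pow_ge {x z : ℝ} (hx : 0 ≤ x) (hz : 0 ≤ z) {n : ℕ} (hn : 1 ≤ n) :
    z ^ (n - 1) * |x - z| ≤ |x ^ n - z ^ n| := by
  rw [← (Commute.all x z).geom_sum₂_mul n, abs_mul]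
  refine mul_le_mul_of_nonneg_right ?_ (abs_nonneg _)
  refine le_trans ?_ (le_abs_self _)
  have h := Finset.single_le_sum (f := fun i => x ^ i * z ^ (n - 1 - i)) (s := Finset.range n)
    (fun i _ => by positivity) (Finset.mem_range.2 (by omega : 0 < n))
  simpa using h

/-- bound for `y` if `|A x ^ β - B y ^ β| = c` -/
theorem bound_pos {β : ℕ} (hβ : 3 ≤ β) {A B : ℕ} (hA : A ≠ 0) (hB : B ≠ 0) {c : ℝ} (hc : 0 < c) :
    ∃ Y : ℕ, ∀ x y : ℕ, |(A : ℝ) * (x : ℝ) ^ β - B * (y : ℝ) ^ β| = c → y ≤ Y := by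
  have hA' : (0 : ℝ) < A := by exact_mod_cast Nat.pos_of_ne_zero hA
  have hB' : (0 : ℝ) < B := by exact_mod_cast Nat.pos_of_ne_zero hB
  have hβ0 : β ≠ 0 := by omega
  set ρ : ℝ := ((B : ℝ) / A) ^ ((β : ℝ)⁻¹) with hρ
  have hρ0 : 0 < ρ := Real.rpow_pos_of_pos (by positivity) _
  have hρβ : ρ ^ β = (B : ℝ) / A := Real.rpow_inv_natCast_pow (by positivity) hβ0
  have key : ∀ x y : ℕ, 1 ≤ y → |(A : ℝ) * (x : ℝ) ^ β - B * (y : ℝ) ^ β| = c →
      (y : ℝ) ^ 2 * |(y : ℝ) * ρ - x| ≤ c / (A * ρ ^ (β - 1)) := by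
    intro x y hy h
    have hy' : (1 : ℝ) ≤ y := by exact_mod_cast hy
    have h1 := sub_pow_ge (x := x) (z := ρ * y) (Nat.cast_nonneg x) (by positivity)
      (n := β) (by omega)
    have h2 : (A : ℝ) * |(x : ℝ) ^ β - (ρ * y) ^ β| = c := by
      rw [← h, ← abs_of_pos hA', ← abs_mul, abs_of_pos hA', mul_pow, hρβ]
      congr 1
      field_simp
    have h3 : (A : ℝ) * ((ρ * y) ^ (β - 1) * |(x : ℝ) - ρ * y|) ≤ c := by
      rw [← h2]
      exact mul_le_mul_of_nonneg_left h1 hA'.le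
    have h4 : (y : ℝ) ^ 2 ≤ (y : ℝ) ^ (β - 1) := pow_le_pow_right₀ hy' (by omega)
    rw [le_div_iff₀ (by positivity)]
    calc (y : ℝ) ^ 2 * |(y : ℝ) * ρ - x| * (A * ρ ^ (β - 1))
        ≤ (y : ℝ) ^ (β - 1) * |(y : ℝ) * ρ - x| * (A * ρ ^ (β - 1)) := by gcongr
      _ = (A : ℝ) * ((ρ * y) ^ (β - 1) * |(x : ℝ) - ρ * y|) := by
        rw [abs_sub_comm (x : ℝ), mul_comm ρ (y : ℝ), mul_pow]
        ring
      _ ≤ c := h3
  set C : ℝ := c / (A * ρ ^ (β - 1)) with hC
  have hC0 : 0 < C := by positivity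
  by_cases hirr : Irrational ρ
  · have halg : IsAlgebraic ℚ ρ := by
      refine IsAlgebraic.of_pow (n := β) (by omega) ?_
      rw [hρβ]
      have : ((B : ℝ) / A) = algebraMap ℚ ℝ ((B : ℚ) / A) := by simp
      rw [this]
      exact isAlgebraic_algebraMap _
    obtain ⟨c₀, hc₀, hR⟩ := Pool.Agent.W472.AC.roth ρ halg hirr (1 / 2) (by norm_num)
    refine ⟨⌈(C / c₀) ^ 2⌉₊, fun x y h => ?_⟩
    rcases Nat.eq_zero_or_pos y with hy | hy
    · rw [hy]; exact Nat.zero_le _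
    have hy' : (1 : ℝ) ≤ y := by exact_mod_cast hy
    have h1 := hR y hy x
    have h2 := key x y hy h
    rw [Int.cast_natCast] at h1
    have h3 : c₀ * (y : ℝ) ^ (1 / 2 : ℝ) ≤ C := by
      calc c₀ * (y : ℝ) ^ (1 / 2 : ℝ)
          ≤ ((y : ℝ) ^ (1 + 1 / 2 : ℝ) * |(y : ℝ) * ρ - x|) * (y : ℝ) ^ (1 / 2 : ℝ) := by gcongr
        _ = ((y : ℝ) ^ (1 + 1 / 2 : ℝ) * (y : ℝ) ^ (1 / 2 : ℝ)) * |(y : ℝ) * ρ - x| := by ring
        _ = (y : ℝ) ^ 2 * |(y : ℝ) * ρ - x| := by
          rw [← Real.rpow_add (by linarith)]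
          norm_num
        _ ≤ C := h2
    have h4 : (y : ℝ) ^ (1 / 2 : ℝ) ≤ C / c₀ := by
      rw [le_div_iff₀ hc₀, mul_comm]
      exact h3
    have h5 : (y : ℝ) ≤ (C / c₀) ^ 2 := by
      have h6 : ((y : ℝ) ^ (1 / 2 : ℝ)) ^ 2 = y := by
        rw [← Real.rpow_natCast, ← Real.rpow_mul (by linarith)]
        norm_num
      rw [← h6]
      gcongr
    exact_mod_cast h5.trans (Nat.le_ceil _)
  · rw [Irrational, not_not] at hirr
    obtain ⟨r, hr⟩ := hirr
    refine ⟨⌈C * r.den⌉₊, fun x y h => ?_⟩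
    rcases Nat.eq_zero_or_pos y with hy | hy
    · rw [hy]; exact Nat.zero_le _
    have hy' : (1 : ℝ) ≤ y := by exact_mod_cast hy
    have h2 := key x y hy h
    have hden : (0 : ℝ) < r.den := by exact_mod_cast r.pos
    have hne : (y : ℝ) * ρ - x ≠ 0 := by
      intro h0
      have h1 : (x : ℝ) = y * ρ := by linarith
      have h3 : (A : ℝ) * (x : ℝ) ^ β - B * (y : ℝ) ^ β = 0 := by
        rw [h1, mul_pow, hρβ]
        field_simp
        ring
      rw [h3, abs_zero] at h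
      exact hc.ne h
    have hval : (y : ℝ) * ρ - x = ((y * r.num - x * r.den : ℤ) : ℝ) / r.den := by
      have hr' : ρ = r.num / r.den := by
        rw [← hr]
        exact Rat.cast_def r
      rw [hr']
      push_cast
      field_simp
    have hint : (y * r.num - x * r.den : ℤ) ≠ 0 := by
      intro h0
      rw [h0] at hval
      apply hne
      rw [hval]
      simp
    have hge : 1 / (r.den : ℝ) ≤ |(y : ℝ) * ρ - x| := by
      rw [hval, abs_div, abs_of_pos hden]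
      have : (1 : ℝ) ≤ |((y * r.num - x * r.den : ℤ) : ℝ)| := by
        exact_mod_cast Int.one_le_abs hint
      gcongr
    have h3 : (y : ℝ) ≤ C * r.den := by
      have h4 : (y : ℝ) ≤ (y : ℝ) ^ 2 := by nlinarith
      have h5 : (y : ℝ) * (1 / (r.den : ℝ)) ≤ C := by
        calc (y : ℝ) * (1 / (r.den : ℝ)) ≤ (y : ℝ) ^ 2 * |(y : ℝ) * ρ - x| := by gcongr
          _ ≤ C := h2
      rw [mul_one_div, div_le_iff₀ hden] at h5
      exact h5
    exact_mod_cast h3.trans (Nat.le_ceil _)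

theorem bound {β : ℕ} (hβ : 3 ≤ β) {a b c : ℤ} (ha : a ≠ 0) (hb : b ≠ 0) (hc : c ≠ 0) :
    ∃ Y : ℕ, ∀ x y : ℕ, a * (x : ℤ) ^ β + b * (y : ℤ) ^ β = c → y ≤ Y := by
  by_cases hs : 0 < a * b
  · refine ⟨c.natAbs, fun x y h => ?_⟩
    have h1 : |b * (y : ℤ) ^ β| ≤ |c| := by
      rw [← h]
      have hx : (0 : ℤ) ≤ (x : ℤ) ^ β := by positivity
      have hy : (0 : ℤ) ≤ (y : ℤ) ^ β := by positivity
      rcases lt_or_gt_of_ne hb with h2 | h2
      · have h3 : a < 0 := by nlinarith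
        rw [abs_of_nonpos (mul_nonpos_of_nonpos_of_nonneg h2.le hy), abs_of_nonpos]
        · nlinarith [mul_nonneg (neg_nonneg.2 h3.le) hx]
        · nlinarith [mul_nonneg (neg_nonneg.2 h3.le) hx, mul_nonneg (neg_nonneg.2 h2.le) hy]
      · have h3 : 0 < a := by nlinarith
        rw [abs_of_nonneg (by positivity), abs_of_nonneg (by positivity)]
        nlinarith [mul_nonneg h3.le hx]
    have h2 : (y : ℤ) ≤ |b * (y : ℤ) ^ β| := by
      rw [abs_mul, abs_of_nonneg (by positivity : (0 : ℤ) ≤ (y : ℤ) ^ β)]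
      have h3 : (1 : ℤ) ≤ |b| := Int.one_le_abs hb
      have h4 : (y : ℤ) ≤ (y : ℤ) ^ β := by exact_mod_cast Nat.le_self_pow (by omega) y
      nlinarith [mul_nonneg (by linarith : (0 : ℤ) ≤ |b| - 1)
        (by positivity : (0 : ℤ) ≤ (y : ℤ) ^ β)]
    have h3 := h2.trans h1
    rw [Int.abs_eq_natAbs] at h3
    exact_mod_cast h3
  · have hab : a * b < 0 := lt_of_le_of_ne (not_lt.1 hs) (mul_ne_zero ha hb)
    have hc' : (0 : ℝ) < |(c : ℝ)| := abs_pos.2 (by exact_mod_cast hc)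
    obtain ⟨Y, hY⟩ := bound_pos hβ (Int.natAbs_ne_zero.2 ha) (Int.natAbs_ne_zero.2 hb) hc'
    refine ⟨Y, fun x y h => hY x y ?_⟩
    have hnA : ((a.natAbs : ℕ) : ℝ) = |(a : ℝ)| := by
      rw [Nat.cast_natAbs, Int.cast_abs]
    have hnB : ((b.natAbs : ℕ) : ℝ) = |(b : ℝ)| := by
      rw [Nat.cast_natAbs, Int.cast_abs]
    rw [hnA, hnB]
    have hR : (a : ℝ) * (x : ℝ) ^ β + b * (y : ℝ) ^ β = c := by exact_mod_cast h
    rcases lt_or_gt_of_ne ha with h2 | h2
    · have h3 : 0 < b := by nlinarith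
      have h2' : (a : ℝ) < 0 := by exact_mod_cast h2
      have h3' : (0 : ℝ) < b := by exact_mod_cast h3
      rw [abs_of_neg h2', abs_of_pos h3', ← hR, ← abs_neg]
      congr 1
      ring
    · have h3 : b < 0 := by nlinarith
      have h2' : (0 : ℝ) < a := by exact_mod_cast h2
      have h3' : (b : ℝ) < 0 := by exact_mod_cast h3
      rw [abs_of_pos h2', abs_of_neg h3', ← hR]
      congr 1
      ring

/-- **Thue's theorem** for `a x ^ β + b y ^ β = c`. -/
theorem thue {β : ℕ} (hβ : 3 ≤ β) {a b c : ℤ} (ha : a ≠ 0) (hb : b ≠ 0) (hc : c ≠ 0) :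
    {p : ℕ × ℕ | a * (p.1 : ℤ) ^ β + b * (p.2 : ℤ) ^ β = c}.Finite := by
  obtain ⟨Y, hY⟩ := bound hβ ha hb hc
  obtain ⟨X, hX⟩ := bound hβ hb ha hc
  refine ((Set.finite_Iic X).prod (Set.finite_Iic Y)).subset ?_
  rintro ⟨x, y⟩ h
  exact ⟨hX y x (by rw [← h.out]; ring), hY x y h⟩

/-- `n = u z ^ β`, with `u` bounded, if the multiplicities of all primes `> D` in `n` are divisible
by `β`. -/
theorem bad_form {β D n : ℕ} (hβ : 0 < β) (hn : n ≠ 0)
    (h : ∀ p : ℕ, p.Prime → D < p → β ∣ n.factorization p) :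
    ∃ u z : ℕ, n = u * z ^ β ∧ u ≠ 0 ∧ u ≤ ((D + 1) ^ β) ^ (D + 1) := by
  set u : ℕ := n.factorization.prod (fun p e => p ^ (e % β)) with hu
  set z : ℕ := n.factorization.prod (fun p e => p ^ (e / β)) with hz
  have hpr : ∀ p ∈ n.factorization.support, p.Prime := fun p hp => by
    rw [Nat.support_factorization] at hp
    exact Nat.prime_of_mem_primeFactors hp
  refine ⟨u, z, ?_, ?_, ?_⟩
  · conv_lhs => rw [← Nat.factorization_prod_pow_eq_self hn]
    rw [hu, hz, Finsupp.prod, Finsupp.prod, Finsupp.prod, ← Finset.prod_pow,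
      ← Finset.prod_mul_distrib]
    refine Finset.prod_congr rfl fun p _ => ?_
    rw [← pow_mul, ← pow_add]
    congr 1
    rw [mul_comm (n.factorization p / β) β, Nat.mod_add_div]
  · rw [hu, Finsupp.prod]
    exact Finset.prod_ne_zero_iff.2 fun p hp => pow_ne_zero _ (hpr p hp).ne_zero
  · rw [hu, Finsupp.prod]
    have h1 : ∏ p ∈ n.factorization.support, p ^ (n.factorization p % β) =
        ∏ p ∈ n.factorization.support.filter (fun p => p ≤ D), p ^ (n.factorization p % β) := by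
      rw [Finset.prod_filter]
      refine Finset.prod_congr rfl fun p hp => ?_
      split_ifs with hpD
      · rfl
      · rw [Nat.mod_eq_zero_of_dvd (h p (hpr p hp) (by omega)), pow_zero]
    rw [h1]
    have h2 : ∏ p ∈ n.factorization.support.filter (fun p => p ≤ D),
        p ^ (n.factorization p % β) ≤
        ((D + 1) ^ β) ^ (n.factorization.support.filter (fun p => p ≤ D)).card := by
      refine Finset.prod_le_pow_card _ _ _ fun p hp => ?_
      have hpD := (Finset.mem_filter.1 hp).2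
      calc p ^ (n.factorization p % β) ≤ (D + 1) ^ (n.factorization p % β) :=
            Nat.pow_le_pow_left (by omega) _
        _ ≤ (D + 1) ^ β := Nat.pow_le_pow_right (by omega) (Nat.mod_lt _ hβ).le
    refine h2.trans (Nat.pow_le_pow_right (Nat.pos_of_ne_zero (by positivity)) ?_)
    calc (n.factorization.support.filter (fun p => p ≤ D)).card ≤ (Finset.range (D + 1)).card := by
          refine Finset.card_le_card fun p hp => ?_
          have := (Finset.mem_filter.1 hp).2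
          exact Finset.mem_range.2 (by omega)
      _ = D + 1 := Finset.card_range _

/-- Two linear forms which are not proportional are both of the form `u z ^ β` up to sign, with `u`
bounded, for finitely many integers `k` only. -/
theorem two_bad {β : ℕ} (hβ : 3 ≤ β) (D : ℕ) {A B A' B' : ℤ} (hA : A ≠ 0) (hA' : A' ≠ 0)
    (hΔ : A * B' - A' * B ≠ 0) :
    {k : ℤ | A * k + B ≠ 0 ∧ A' * k + B' ≠ 0 ∧
      (∀ p : ℕ, p.Prime → D < p → β ∣ (A * k + B).natAbs.factorization p) ∧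
      ∀ p : ℕ, p.Prime → D < p → β ∣ (A' * k + B').natAbs.factorization p}.Finite := by
  set U : ℕ := ((D + 1) ^ β) ^ (D + 1) with hU
  -- the solutions for given `u`, `u'` (with signs)
  have hfin : ∀ u u' : ℤ, u ≠ 0 → u' ≠ 0 →
      {k : ℤ | ∃ x y : ℕ, A * k + B = u * (x : ℤ) ^ β ∧ A' * k + B' = u' * (y : ℤ) ^ β}.Finite := by
    intro u u' hu hu'
    have h1 := thue hβ (a := -(A' * u)) (b := A * u') (c := A * B' - A' * B)
      (neg_ne_zero.2 (mul_ne_zero hA' hu)) (mul_ne_zero hA hu') hΔ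
    refine (h1.image (fun p => (u * (p.1 : ℤ) ^ β - B) / A)).subset ?_
    rintro k ⟨x, y, hx, hy⟩
    refine ⟨(x, y), ?_, ?_⟩
    · change -(A' * u) * (x : ℤ) ^ β + A * u' * (y : ℤ) ^ β = A * B' - A' * B
      have e1 : A' * (A * k + B) = A' * (u * (x : ℤ) ^ β) := by rw [hx]
      have e2 : A * (A' * k + B') = A * (u' * (y : ℤ) ^ β) := by rw [hy]
      linear_combination e1 - e2
    · change (u * (x : ℤ) ^ β - B) / A = k
      rw [← hx, add_sub_cancel_right, Int.mul_ediv_cancel_left _ hA]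
  have hbig : (⋃ u ∈ (Set.Icc (-(U : ℤ)) U \ {0}), ⋃ u' ∈ (Set.Icc (-(U : ℤ)) U \ {0}),
      {k : ℤ | ∃ x y : ℕ, A * k + B = u * (x : ℤ) ^ β ∧
        A' * k + B' = u' * (y : ℤ) ^ β}).Finite := by
    refine Set.Finite.biUnion ((Set.finite_Icc _ _).diff) fun u hu => ?_
    refine Set.Finite.biUnion ((Set.finite_Icc _ _).diff) fun u' hu' => ?_
    exact hfin u u' (by simpa using hu.2) (by simpa using hu'.2)
  refine hbig.subset ?_
  rintro k ⟨h1, h2, h3, h4⟩
  have key : ∀ n : ℤ, n ≠ 0 → (∀ p : ℕ, p.Prime → D < p → β ∣ n.natAbs.factorization p) →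
      ∃ u ∈ (Set.Icc (-(U : ℤ)) U \ {0}), ∃ x : ℕ, n = u * (x : ℤ) ^ β := by
    intro n hn hp
    obtain ⟨u, z, h5, h6, h7⟩ := bad_form (by omega : 0 < β) (Int.natAbs_ne_zero.2 hn) hp
    have h6' : (u : ℤ) ≠ 0 := by exact_mod_cast h6
    have h7' : (u : ℤ) ≤ U := by exact_mod_cast h7
    have h5' : (n.natAbs : ℤ) = u * (z : ℤ) ^ β := by exact_mod_cast h5
    rcases Int.natAbs_eq n with h8 | h8
    · refine ⟨u, ⟨⟨by have : (0 : ℤ) ≤ u := Int.natCast_nonneg u
                      omega, h7'⟩, by simpa using h6'⟩, z, ?_⟩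
      rw [h8, h5']
    · refine ⟨-u, ⟨⟨by omega, by have : (0 : ℤ) ≤ u := Int.natCast_nonneg u
                                 omega⟩, by simpa using h6'⟩, z, ?_⟩
      rw [h8, h5']
      ring
  obtain ⟨u, hu, x, hx⟩ := key _ h1 h3
  obtain ⟨u', hu', y, hy⟩ := key _ h2 h4
  simp only [Set.mem_iUnion]
  exact ⟨u, hu, u', hu', x, y, hx, hy⟩

end Pool.Agent.K34TH
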